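import Pool.Agent.Helper56.RC.StF

open MeasureTheory Set Filter Metric

namespace Pool.Agent.Helper19.RC

open Helper49.LT Helper49.RC Helper87.RC Helper44.RC Helper56.RC

/-- the elementary inequality behind the blocks: `‖u + conj w‖² ≤ 2 (‖u‖² + ‖w‖²)` -/
theorem norm_add_conj_sq_le (u w : ℂ) :
    ‖u + (starRingEnd ℂ) w‖ ^ 2 ≤ 2 * (‖u‖ ^ 2 + ‖w‖ ^ 2) := by
  have h := norm_add_le u ((starRingEnd ℂ) w)
  have h2 : ‖(starRingEnd ℂ) w‖ = ‖w‖ := RCLike.norm_conj w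
  rw [h2] at h
  have h0 : 0 ≤ ‖u + (starRingEnd ℂ) w‖ := norm_nonneg _
  nlinarith [sq_nonneg (‖u‖ - ‖w‖), norm_nonneg u, norm_nonneg w]

theorem abs_re_mul_le (u w : ℂ) : |(u * w).re| ≤ 1 / 2 * (‖u‖ ^ 2 + ‖w‖ ^ 2) := by
  have h := Complex.abs_re_le_norm (u * w)
  rw [norm_mul] at h
  nlinarith [sq_nonneg (‖u‖ - ‖w‖)]

theorem sgm_abs_le (d ρ : ℝ) (m : ℤ) : |sgm d ρ m| ≤ 1 := by
  unfold sgm
  have h1 := Real.abs_cos_le_one (2 * m * (Real.pi / 3 + d))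
  have h2 := Real.abs_cos_le_one (m * ρ)
  have h3 : |Real.cos (2 * m * (Real.pi / 3 + d)) * Real.cos (m * ρ)| ≤ 1 := by
    rw [abs_mul]; nlinarith [abs_nonneg (Real.cos (2 * m * (Real.pi / 3 + d))),
      abs_nonneg (Real.cos (m * ρ))]
  have h4 := abs_le.mp h3
  rw [abs_le]
  constructor <;> nlinarith [h4.1, h4.2]

/-- the sum over the blocks -/
theorem blocks_sum (d ρ : ℝ) (θ : ℤ → ℝ) (hB : Blk d ρ θ) (U W : ℕ → ℂ)
    (sQ : Summable fun k : ℕ => QB (1 / 20) (33 / 200) d ρ k (U k) (W k))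
    (sF : Summable fun k : ℕ => ‖U k‖ ^ 2 + ‖W k‖ ^ 2)
    (sB : Summable fun k : ℕ => bC θ d ρ (2 * k + 3) * ‖U k‖ ^ 2
      + bC θ d ρ (-(2 * k + 1)) * ‖W k‖ ^ 2) :
    ∑' k : ℕ, (bC θ d ρ (2 * k + 3) * ‖U k‖ ^ 2 + bC θ d ρ (-(2 * k + 1)) * ‖W k‖ ^ 2)
      + 17 / 100 * ∑' k : ℕ, (‖U k‖ ^ 2 + ‖W k‖ ^ 2) + 3 * (‖U 0‖ ^ 2 + ‖W 0‖ ^ 2)
      + FSc (1 / 20) (33 / 200) / 2 * ∑' k : ℕ, 1 / 2 * ‖U k + (starRingEnd ℂ) (W k)‖ ^ 2
      ≤ ∑' k : ℕ, QB (1 / 20) (33 / 200) d ρ k (U k) (W k)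
        + 891 / 100 * ∑' k : ℕ, (‖U k‖ ^ 2 + ‖W k‖ ^ 2) := by
  have sR : Summable fun k : ℕ => 1 / 2 * ‖U k + (starRingEnd ℂ) (W k)‖ ^ 2 := by
    refine Summable.of_nonneg_of_le (fun k => by positivity) (fun k => ?_) sF
    have := norm_add_conj_sq_le (U k) (W k)
    linarith
  have s3 : HasSum (fun k : ℕ => if k = 0 then 3 * (‖U k‖ ^ 2 + ‖W k‖ ^ 2) else 0)
      (3 * (‖U 0‖ ^ 2 + ‖W 0‖ ^ 2)) := by
    have := hasSum_single (f := fun k : ℕ => if k = 0 then 3 * (‖U k‖ ^ 2 + ‖W k‖ ^ 2) else 0) 0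
      (fun k hk => by simp [hk])
    simpa using this
  have sL : HasSum (fun k : ℕ => (bC θ d ρ (2 * k + 3) * ‖U k‖ ^ 2
      + bC θ d ρ (-(2 * k + 1)) * ‖W k‖ ^ 2) + 17 / 100 * (‖U k‖ ^ 2 + ‖W k‖ ^ 2)
      + (if k = 0 then 3 * (‖U k‖ ^ 2 + ‖W k‖ ^ 2) else 0)
      + FSc (1 / 20) (33 / 200) / 2 * (1 / 2 * ‖U k + (starRingEnd ℂ) (W k)‖ ^ 2)) _ :=
    ((sB.hasSum.add (sF.hasSum.mul_left (17 / 100))).add s3).add
      (sR.hasSum.mul_left (FSc (1 / 20) (33 / 200) / 2))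
  have sRR : HasSum (fun k : ℕ => QB (1 / 20) (33 / 200) d ρ k (U k) (W k)
      + 891 / 100 * (‖U k‖ ^ 2 + ‖W k‖ ^ 2)) _ :=
    sQ.hasSum.add (sF.hasSum.mul_left (891 / 100))
  refine hasSum_le (fun k => ?_) sL sRR
  have h := hB k (U k) (W k)
  by_cases hk : k = 0
  · subst hk
    simp only [if_true] at h ⊢
    nlinarith [h]
  · simp only [hk, if_false] at h ⊢
    nlinarith [h]

/-- the sum over the pairs -/
theorem pairs_sum (d ρ l comp : ℝ) (θ : ℤ → ℝ) (hV : Vpr d ρ l comp θ) (C D : ℕ → ℂ)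
    (sF : Summable fun k : ℕ => ‖C k‖ ^ 2 + ‖D k‖ ^ 2)
    (sv : Summable fun k : ℕ => vC θ d ρ (2 * k + 2) * ‖C k‖ ^ 2 + vC θ d ρ (-(2 * k)) * ‖D k‖ ^ 2) :
    (FSc (1 / 20) (33 / 200) - l) * (47 / 100) * (‖C 1‖ ^ 2 + ‖D 1‖ ^ 2 + (C 1 * D 1).re)
      + 19 / 20 * (sgm d ρ 4 * ‖C 1‖ ^ 2 - 2 * sgm d ρ 2 * ‖D 1‖ ^ 2)
      - (vC θ d ρ 4 * ‖C 1‖ ^ 2 + vC θ d ρ (-2) * ‖D 1‖ ^ 2)
      ≤ (FSc (1 / 20) (33 / 200) - l) * (94 / 100)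
          * ∑' k : ℕ, (1 / 2 * (‖C k‖ ^ 2 + ‖D k‖ ^ 2) + 1 / 2 * (C k * D k).re)
        + 19 / 20 * ∑' k : ℕ, 4 * sgm d ρ (2 * k + 2) / (2 * k + 2) * (‖C k‖ ^ 2 - ‖D (k + 1)‖ ^ 2)
        - ∑' k : ℕ, (vC θ d ρ (2 * k + 2) * ‖C k‖ ^ 2 + vC θ d ρ (-(2 * k)) * ‖D k‖ ^ 2)
        - (l10 d ρ * ‖C 4‖ + l8 d ρ * ‖D 4‖ - comp) := by
  have sC : Summable fun k : ℕ => ‖C k‖ ^ 2 :=
    Summable.of_nonneg_of_le (fun k => by positivity) (fun k => by nlinarith [sq_nonneg ‖D k‖]) sF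
  have sD : Summable fun k : ℕ => ‖D k‖ ^ 2 :=
    Summable.of_nonneg_of_le (fun k => by positivity) (fun k => by nlinarith [sq_nonneg ‖C k‖]) sF
  have sG : Summable fun k : ℕ => 1 / 2 * (‖C k‖ ^ 2 + ‖D k‖ ^ 2) + 1 / 2 * (C k * D k).re := by
    refine Summable.of_nonneg_of_le (fun k => ?_) (fun k => ?_) sF
    · have := abs_le.mp (abs_re_mul_le (C k) (D k))
      nlinarith [this.1, sq_nonneg ‖C k‖, sq_nonneg ‖D k‖]
    · have := abs_le.mp (abs_re_mul_le (C k) (D k))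
      nlinarith [this.2, sq_nonneg ‖C k‖, sq_nonneg ‖D k‖]
  -- the two halves of the kernel part
  have hcoef : ∀ (x : ℝ) (m : ℤ) (y : ℝ), 2 ≤ y → 0 ≤ x →
      ‖4 * sgm d ρ m / y * x‖ ≤ 2 * x := by
    intro x m y hy hx
    rw [Real.norm_eq_abs, abs_mul, abs_div, abs_mul, abs_of_nonneg hx,
      abs_of_nonneg (by linarith : (0 : ℝ) ≤ y)]
    have h1 := sgm_abs_le d ρ m
    have h4 : |(4 : ℝ)| = 4 := abs_of_pos (by norm_num)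
    rw [h4]
    have : 4 * |sgm d ρ m| / y ≤ 2 := by
      rw [div_le_iff₀ (by linarith)]; nlinarith
    exact mul_le_mul_of_nonneg_right this hx
  have sA : Summable fun k : ℕ => 4 * sgm d ρ (2 * k + 2) / (2 * k + 2) * ‖C k‖ ^ 2 := by
    refine Summable.of_norm_bounded (g := fun k => 2 * ‖C k‖ ^ 2) (sC.mul_left 2) (fun k => ?_)
    exact hcoef _ _ _ (by have : (0 : ℝ) ≤ k := Nat.cast_nonneg k
                          linarith) (by positivity)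
  have sB' : Summable fun k : ℕ => 4 * sgm d ρ (2 * k + 2) / (2 * k + 2) * ‖D (k + 1)‖ ^ 2 := by
    refine Summable.of_norm_bounded (g := fun k => 2 * ‖D (k + 1)‖ ^ 2)
      (((summable_nat_add_iff 1).mpr sD).mul_left 2) (fun k => ?_)
    exact hcoef _ _ _ (by have : (0 : ℝ) ≤ k := Nat.cast_nonneg k
                          linarith) (by positivity)
  set B : ℕ → ℝ := fun k => if k = 0 then 0 else 4 * sgm d ρ (2 * k) / (2 * k) * ‖D k‖ ^ 2 with hBdef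
  have hBs : (fun k : ℕ => B (k + 1))
      = fun k : ℕ => 4 * sgm d ρ (2 * k + 2) / (2 * k + 2) * ‖D (k + 1)‖ ^ 2 := by
    funext k
    simp only [hBdef, Nat.succ_ne_zero, if_false]
    push_cast
    have e1 : (2 * ((k : ℤ) + 1)) = 2 * k + 2 := by ring
    have e2 : (2 * ((k : ℝ) + 1)) = 2 * k + 2 := by ring
    rw [e1, e2]
  have sB1 : Summable fun k : ℕ => B (k + 1) := by rw [hBs]; exact sB'
  have sBB : Summable B := (summable_nat_add_iff 1).mp sB1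
  have hBsum : ∑' k, B k = ∑' k : ℕ, 4 * sgm d ρ (2 * k + 2) / (2 * k + 2) * ‖D (k + 1)‖ ^ 2 := by
    rw [sBB.tsum_eq_zero_add, hBs]
    simp [hBdef]
  have hK : ∑' k : ℕ, 4 * sgm d ρ (2 * k + 2) / (2 * k + 2) * (‖C k‖ ^ 2 - ‖D (k + 1)‖ ^ 2)
      = ∑' k : ℕ, 4 * sgm d ρ (2 * k + 2) / (2 * k + 2) * ‖C k‖ ^ 2 - ∑' k, B k := by
    rw [hBsum, ← sA.tsum_sub sB']
    refine tsum_congr (fun k => ?_)
    ring
  have s4 : HasSum (fun k : ℕ => if k = 4 then l10 d ρ * ‖C k‖ + l8 d ρ * ‖D k‖ - comp else 0)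
      (l10 d ρ * ‖C 4‖ + l8 d ρ * ‖D 4‖ - comp) := by
    have := hasSum_single
      (f := fun k : ℕ => if k = 4 then l10 d ρ * ‖C k‖ + l8 d ρ * ‖D k‖ - comp else 0) 4
      (fun k hk => by simp [hk])
    simpa using this
  set h : ℕ → ℝ := fun k => (FSc (1 / 20) (33 / 200) - l) * (94 / 100)
      * (1 / 2 * (‖C k‖ ^ 2 + ‖D k‖ ^ 2) + 1 / 2 * (C k * D k).re)
      + 19 / 20 * (4 * sgm d ρ (2 * k + 2) / (2 * k + 2) * ‖C k‖ ^ 2 - B k)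
      - (vC θ d ρ (2 * k + 2) * ‖C k‖ ^ 2 + vC θ d ρ (-(2 * k)) * ‖D k‖ ^ 2)
      - (if k = 4 then l10 d ρ * ‖C k‖ + l8 d ρ * ‖D k‖ - comp else 0) with hh
  have sh : HasSum h _ :=
    (((sG.hasSum.mul_left ((FSc (1 / 20) (33 / 200) - l) * (94 / 100))).add
      ((sA.hasSum.sub sBB.hasSum).mul_left (19 / 20))).sub sv.hasSum).sub s4
  have hnn : ∀ k ∉ ({1} : Finset ℕ), 0 ≤ h k := by
    intro k hk
    have hk1 : k ≠ 1 := by simpa using hk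
    have hp := hV k (C k) (D k) hk1
    simp only [hh, hBdef]
    by_cases h0 : k = 0
    · subst h0
      simp only [if_true] at hp ⊢
      simp only [OfNat.zero_ne_ofNat, if_false] at hp ⊢
      push_cast at hp ⊢
      nlinarith [hp]
    · simp only [h0, if_false] at hp ⊢
      nlinarith [hp]
  have hfin := sh.summable.sum_le_tsum {1} hnn
  rw [Finset.sum_singleton, sh.tsum_eq] at hfin
  rw [hK]
  have h1eq : h 1 = (FSc (1 / 20) (33 / 200) - l) * (47 / 100) * (‖C 1‖ ^ 2 + ‖D 1‖ ^ 2 + (C 1 * D 1).re)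
      + 19 / 20 * (sgm d ρ 4 * ‖C 1‖ ^ 2 - 2 * sgm d ρ 2 * ‖D 1‖ ^ 2)
      - (vC θ d ρ 4 * ‖C 1‖ ^ 2 + vC θ d ρ (-2) * ‖D 1‖ ^ 2) := by
    simp only [hh, hBdef, one_ne_zero, if_false, OfNat.one_ne_ofNat]
    have e1 : (2 * ((1 : ℕ) : ℤ) + 2) = 4 := by norm_num
    have e2 : (2 * ((1 : ℕ) : ℤ)) = 2 := by norm_num
    rw [e1, e2]
    push_cast
    ring
  rw [h1eq] at hfin
  linarith [hfin]

/-- the cubic term -/
theorem cubic_le (m : ℝ) (hm0 : 0 ≤ m) (u w : ℂ) :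
    3 / (2 * (1 + 33 / 200)) * m * ‖((gg (1 / 20) 0 + 4 * (33 / 200) : ℝ) : ℂ) * (starRingEnd ℂ) w
        - (((gg (1 / 20) 0 + 33 / 200) / 3 : ℝ) : ℂ) * u‖
      ≤ 3 * (‖u‖ ^ 2 + ‖w‖ ^ 2) + 113 / 100 * m ^ 2 := by
  have h3 : Real.sqrt 3 ≤ 1733 / 1000 := by
    rw [show (1733 / 1000 : ℝ) = Real.sqrt ((1733 / 1000) ^ 2) by
      rw [Real.sqrt_sq (by norm_num)]]
    exact Real.sqrt_le_sqrt (by norm_num)
  have h30 : 0 ≤ Real.sqrt 3 := Real.sqrt_nonneg 3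
  have hg : gg (1 / 20) 0 = 2 + Real.sqrt 3 / 20 := by unfold gg; ring
  have hn : ‖((gg (1 / 20) 0 + 4 * (33 / 200) : ℝ) : ℂ) * (starRingEnd ℂ) w
        - (((gg (1 / 20) 0 + 33 / 200) / 3 : ℝ) : ℂ) * u‖ ≤ 2747 / 1000 * ‖w‖ + 751 / 1000 * ‖u‖ := by
    refine (norm_sub_le _ _).trans ?_
    rw [norm_mul, norm_mul, Complex.norm_real, Complex.norm_real, RCLike.norm_conj, hg,
      Real.norm_eq_abs, Real.norm_eq_abs, abs_of_nonneg (by linarith), abs_of_nonneg (by linarith)]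
    have hw := norm_nonneg w
    have hu := norm_nonneg u
    nlinarith [mul_le_mul_of_nonneg_right h3 hw, mul_le_mul_of_nonneg_right h3 hu]
  have hc : 0 ≤ 3 / (2 * (1 + 33 / 200)) * m := by positivity
  have h1 := mul_le_mul_of_nonneg_left hn hc
  refine h1.trans ?_
  have e : 3 / (2 * (1 + 33 / 200)) * m = 300 / 233 * m := by norm_num
  rw [e]
  nlinarith [sq_nonneg (‖w‖ - 300 / 233 * (2747 / 6000) * m),
    sq_nonneg (‖u‖ - 300 / 233 * (751 / 6000) * m), norm_nonneg w, norm_nonneg u, sq_nonneg m]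

/-- monotonicity of `T(S) = FS S - ν S² + F1 S x₁` and the error terms -/
theorem T_bound (S q r x1 rBv m : ℝ) (hS : S < 1 / 5 - r) (hq : q - r ≤ S) (hr : r = 1 / 2 * rBv)
    (hr0 : 0 ≤ rBv) (hrm : rBv ≤ m) (hm : m ≤ 1 / 10) (hx : x1 ^ 2 ≤ 1 / 10) (hq0 : 0 ≤ q) :
    FSc (1 / 20) (33 / 200) * q - 33 / 200 * q ^ 2 + F1c (1 / 20) (33 / 200) * q * x1
      - FSc (1 / 20) (33 / 200) / 2 * rBv
      - (42 / 10000 * m) - (if 0 ≤ x1 then 52 / 100 * x1 ^ 2 + 52 / 1000 * m else 0)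
      ≤ FSc (1 / 20) (33 / 200) * S - 33 / 200 * S ^ 2 + F1c (1 / 20) (33 / 200) * S * x1 := by
  have h3 : Real.sqrt 3 ≤ 1733 / 1000 := by
    rw [show (1733 / 1000 : ℝ) = Real.sqrt ((1733 / 1000) ^ 2) by
      rw [Real.sqrt_sq (by norm_num)]]
    exact Real.sqrt_le_sqrt (by norm_num)
  have h3' : 1732 / 1000 ≤ Real.sqrt 3 := by
    rw [show (1732 / 1000 : ℝ) = Real.sqrt ((1732 / 1000) ^ 2) by
      rw [Real.sqrt_sq (by norm_num)]]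
    exact Real.sqrt_le_sqrt (by norm_num)
  have hFS : FSc (1 / 20) (33 / 200) = 167 / 100 + Real.sqrt 3 / 20 := by unfold FSc; ring
  have hF1 : F1c (1 / 20) (33 / 200) = 2165 / 1000 - Real.sqrt 3 / 20 := by unfold F1c; ring
  set FS := FSc (1 / 20) (33 / 200) with hFSd
  set F1 := F1c (1 / 20) (33 / 200) with hF1d
  have hFS1 : 17566 / 10000 ≤ FS := by rw [hFS]; linarith
  have hF1u : F1 ≤ 20784 / 10000 := by rw [hF1]; linarith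
  have hF1l : 2 ≤ F1 := by rw [hF1]; linarith
  have hxa : |x1| ≤ 317 / 1000 := abs_le_of_sq_le_sq (by nlinarith) (by norm_num)
  obtain ⟨hx1, hx2⟩ := abs_le.mp hxa
  have hr0' : 0 ≤ r := by rw [hr]; linarith
  have hr1 : r ≤ 1 / 20 := by rw [hr]; linarith
  -- step 1: T(S) ≥ T(q - r)
  have hq5 : q < 1 / 5 := by linarith
  have hmono : FS * (q - r) - 33 / 200 * (q - r) ^ 2 + F1 * (q - r) * x1
      ≤ FS * S - 33 / 200 * S ^ 2 + F1 * S * x1 := by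
    have hfac : 0 ≤ FS - 33 / 200 * (S + (q - r)) + F1 * x1 := by
      have hFx : -(20784 / 10000 * (317 / 1000)) ≤ F1 * x1 := by
        nlinarith [mul_nonneg (by linarith : (0:ℝ) ≤ F1) (by linarith : (0:ℝ) ≤ x1 + 317 / 1000)]
      nlinarith
    have := mul_nonneg (by linarith : (0:ℝ) ≤ S - (q - r)) hfac
    nlinarith [this]
  refine le_trans ?_ hmono
  -- step 2: expand
  have hsq : 33 / 200 * (q - r) ^ 2 ≤ 33 / 200 * q ^ 2 + 42 / 10000 * m := by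
    have h1 : r ^ 2 ≤ 1 / 40 * m := by
      rw [hr]; nlinarith [mul_nonneg hr0 (by linarith : (0:ℝ) ≤ m - rBv),
        mul_nonneg (by linarith : (0:ℝ) ≤ m) (by linarith : (0:ℝ) ≤ 1 / 10 - rBv)]
    nlinarith [mul_nonneg hq0 hr0']
  have hrx : F1 * r * x1 ≤ (if 0 ≤ x1 then 52 / 100 * x1 ^ 2 + 52 / 1000 * m else 0) := by
    by_cases h0 : 0 ≤ x1
    · rw [if_pos h0]
      have h1 : rBv ^ 2 ≤ 1 / 10 * m := by
        nlinarith [mul_nonneg hr0 (by linarith : (0:ℝ) ≤ m - rBv),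
          mul_nonneg (by linarith : (0:ℝ) ≤ m) (by linarith : (0:ℝ) ≤ 1 / 10 - rBv)]
      have h2 : F1 * r * x1 ≤ F1 / 4 * (x1 ^ 2 + rBv ^ 2) := by
        rw [hr]; nlinarith [mul_nonneg (by linarith : (0:ℝ) ≤ F1) (sq_nonneg (x1 - rBv))]
      have h3 : F1 / 4 * (x1 ^ 2 + rBv ^ 2) ≤ 52 / 100 * (x1 ^ 2 + rBv ^ 2) :=
        mul_le_mul_of_nonneg_right (by linarith) (by positivity)
      nlinarith
    · rw [if_neg h0]
      have : 0 ≤ F1 * r := mul_nonneg (by linarith) hr0'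
      nlinarith
  have hrr : FS * r = FS / 2 * rBv := by rw [hr]; ring
  nlinarith [hsq, hrx, hrr]

theorem hOPT (h₁ : StLbt) (h₂ : StLoc) (h₃ : StPar) (h₄ : StTwb) : StOpt := by
  intro d ρ l comp θ xa xb hρ hdρ hl0 hl1 hθ hBlk hVpr hLow β P hA hβ hm hS hxa hxb
  obtain ⟨z, a, hz, ha, hre, sb, sv, htw⟩ := h₄ β P hA hβ d ρ θ hθ
  obtain ⟨sQ, hL⟩ := h₁ β P hA hβ (1 / 20) (33 / 200) d ρ z (by norm_num) (by norm_num)
    (by norm_num) hρ hdρ hz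
  obtain ⟨sF, hmB, sG, hrB, hqP⟩ := h₃ β P hA hβ
  have hloc := h₂ β P hA hβ
  have hbl := blocks_sum d ρ θ hBlk (uu β) (ww β) sQ sF sb
  have hpr := pairs_sum d ρ l comp θ hVpr (cp P) (cm P) sG sv
  rw [← hqP] at hpr
  set F2 := ∑' k : ℕ, (‖uu β k‖ ^ 2 + ‖ww β k‖ ^ 2) with hF2
  set R2 := ∑' k : ℕ, 1 / 2 * ‖uu β k + (starRingEnd ℂ) (ww β k)‖ ^ 2 with hR2
  have hF2n : 0 ≤ F2 := tsum_nonneg (fun k => by positivity)
  have hR2n : 0 ≤ R2 := tsum_nonneg (fun k => by positivity)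
  have sR : Summable fun k : ℕ => 1 / 2 * ‖uu β k + (starRingEnd ℂ) (ww β k)‖ ^ 2 := by
    refine Summable.of_nonneg_of_le (fun k => by positivity) (fun k => ?_) sF
    have := norm_add_conj_sq_le (uu β k) (ww β k)
    linarith
  have hRF : R2 ≤ F2 := by
    rw [hR2, hF2]
    refine sR.tsum_le_tsum (fun k => ?_) sF
    have := norm_add_conj_sq_le (uu β k) (ww β k)
    linarith
  have hb1 : |b1 β| ≤ ‖fc β 0‖ := Complex.abs_re_le_norm _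
  have hb1sq : b1 β ^ 2 ≤ ‖fc β 0‖ ^ 2 := by
    rw [← sq_abs (b1 β)]
    exact pow_le_pow_left₀ (abs_nonneg _) hb1 2
  have hy0 : ‖fc β 0‖ ^ 2 ≤ 1 / 10 := by nlinarith
  have hmn : 0 ≤ mB β := by rw [hmB]; positivity
  have hrn : 0 ≤ rB β := by rw [hrB]; positivity
  have hrm : rB β ≤ mB β := by rw [hrB, hmB]; linarith
  -- the pair (v_{-2}, v_4) and the rest
  set q : ℝ := 47 / 100 * (‖cm P 1‖ ^ 2 + ‖cp P 1‖ ^ 2 + ‖cm P 1‖ * a) with hq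
  have hqn : ∀ k : ℕ, 0 ≤ 1 / 2 * (‖cp P k‖ ^ 2 + ‖cm P k‖ ^ 2) + 1 / 2 * (cp P k * cm P k).re := by
    intro k
    have := abs_le.mp (abs_re_mul_le (cp P k) (cm P k))
    nlinarith [this.1, sq_nonneg ‖cp P k‖, sq_nonneg ‖cm P k‖]
  have sGG : Summable fun k : ℕ => 1 / 2 * (‖cp P k‖ ^ 2 + ‖cm P k‖ ^ 2)
      + 1 / 2 * (cp P k * cm P k).re := by
    refine Summable.of_nonneg_of_le hqn (fun k => ?_) sG
    have := abs_le.mp (abs_re_mul_le (cp P k) (cm P k))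
    nlinarith [this.2, sq_nonneg ‖cp P k‖, sq_nonneg ‖cm P k‖]
  have hq1 : q = 94 / 100 * (1 / 2 * (‖cp P 1‖ ^ 2 + ‖cm P 1‖ ^ 2) + 1 / 2 * (cp P 1 * cm P 1).re) := by
    rw [hq, ← hre]; ring
  have hqle : q ≤ 94 / 100 * qP P := by
    rw [hq1, hqP]
    have := sGG.le_tsum 1 (fun k _ => hqn k)
    linarith
  have hq0 : 0 ≤ q := by rw [hq1]; have := hqn 1; linarith
  set qh : ℝ := 94 / 100 * qP P - q with hqh
  have hqh0 : 0 ≤ qh := by rw [hqh]; linarith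
  have hqq : q + qh = 94 / 100 * qP P := by rw [hqh]; ring
  have hq5 : q + qh ≤ 1 / 5 := by rw [hqq]; linarith
  have ha2 : a ^ 2 ≤ ‖cp P 1‖ ^ 2 := by
    rw [← sq_abs a]; exact pow_le_pow_left₀ (abs_nonneg _) ha 2
  have hlow := hLow ‖cm P 1‖ a (‖cp P 1‖ ^ 2) ‖fc β 0‖ (b1 β) q qh hxa hxb ha2 hb1 hy0 hqh0 hq hq5
  have hT := T_bound (SS β P) (q + qh) (1 / 2 * rB β) (b1 β) (rB β) (mB β) hS
    (by rw [hqq]; exact hloc) rfl hrn hrm hm (by linarith) (by linarith)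
  have hcub := cubic_le (mB β) hmn (uu β 0) (ww β 0)
  have hm2 : mB β ^ 2 ≤ 1 / 10 * mB β := by nlinarith
  unfold LowF at hlow
  rw [← hre] at hpr
  have hqd : 94 / 100 * qP P = q + qh := hqq.symm
  have hqP' : qP P = 100 / 94 * (q + qh) := by linarith
  rw [hqP'] at hpr
  have hq2 : 47 / 100 * (‖cp P 1‖ ^ 2 + ‖cm P 1‖ ^ 2 + ‖cm P 1‖ * a) = q := by rw [hq]; ring
  have hpr' : (FSc (1 / 20) (33 / 200) - l) * q
      + 19 / 20 * (sgm d ρ 4 * ‖cp P 1‖ ^ 2 - 2 * sgm d ρ 2 * ‖cm P 1‖ ^ 2)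
      - (vC θ d ρ 4 * ‖cp P 1‖ ^ 2 + vC θ d ρ (-2) * ‖cm P 1‖ ^ 2)
      ≤ (FSc (1 / 20) (33 / 200) - l) * (q + qh)
        + 19 / 20 * ∑' k : ℕ, 4 * sgm d ρ (2 * k + 2) / (2 * k + 2)
          * (‖cp P k‖ ^ 2 - ‖cm P (k + 1)‖ ^ 2)
        - ∑' k : ℕ, (vC θ d ρ (2 * k + 2) * ‖cp P k‖ ^ 2 + vC θ d ρ (-(2 * k)) * ‖cm P k‖ ^ 2)
        - (l10 d ρ * ‖cp P 4‖ + l8 d ρ * ‖cm P 4‖ - comp) := by
    have e1 : (FSc (1 / 20) (33 / 200) - l) * (47 / 100)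
        * (‖cp P 1‖ ^ 2 + ‖cm P 1‖ ^ 2 + ‖cm P 1‖ * a) = (FSc (1 / 20) (33 / 200) - l) * q := by
      rw [← hq2]; ring
    have e2 : (FSc (1 / 20) (33 / 200) - l) * (94 / 100) * (100 / 94 * (q + qh))
        = (FSc (1 / 20) (33 / 200) - l) * (q + qh) := by ring
    rw [e1, e2] at hpr
    exact hpr
  clear hpr hq1 hqle hqn
  clear_value q qh F2 R2
  generalize (∑' k : ℕ, 4 * sgm d ρ (2 * k + 2) / (2 * k + 2)
      * (‖cp P k‖ ^ 2 - ‖cm P (k + 1)‖ ^ 2)) = G3 at hL hpr'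
  generalize (∑' k : ℕ, (vC θ d ρ (2 * k + 2) * ‖cp P k‖ ^ 2
      + vC θ d ρ (-(2 * k)) * ‖cm P k‖ ^ 2)) = G1 at htw hpr'
  generalize (∑' k : ℕ, (bC θ d ρ (2 * k + 3) * ‖uu β k‖ ^ 2
      + bC θ d ρ (-(2 * k + 1)) * ‖ww β k‖ ^ 2)) = G2 at htw hbl
  generalize (∑' k : ℕ, QB (1 / 20) (33 / 200) d ρ k (uu β k) (ww β k)) = G4 at hL hbl
  generalize (3 / (2 * (1 + 33 / 200)) * mB β * ‖((gg (1 / 20) 0 + 4 * (33 / 200) : ℝ) : ℂ)
      * (starRingEnd ℂ) (ww β 0) - (((gg (1 / 20) 0 + 33 / 200) / 3 : ℝ) : ℂ) * uu β 0‖) = CU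
      at hL hcub
  generalize TW β P d ρ 3 z = W3 at hL htw
  generalize TW β P d ρ 9 (z ^ 3) = W9 at hL htw
  rw [hrB] at hT
  by_cases h0 : 0 ≤ b1 β
  · rw [if_pos h0] at hlow hT
    linarith [hlow, hT, hcub, hpr', hbl, htw, hL, hm2, hmB]
  · rw [if_neg h0] at hlow hT
    linarith [hlow, hT, hcub, hpr', hbl, htw, hL, hm2, hmB]

end Pool.Agent.Helper19.RC
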